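import Pool.Agent.Helper30.DL.GoalsB

/-!
helper59: packet CST of helper30 (MP_b4564f_an): the constants.
-/

set_option autoImplicit false

open Complex (I)
open Finset

namespace Pool.Agent.Helper59.DL

open Pool.Agent.Helper30.DL

lemma ex_eq (t : ℝ) (n : ℤ) : ex t n = ⟨Real.cos (n * t), Real.sin (n * t)⟩ := by
  unfold ex
  apply Complex.ext
  · rw [mul_comm, Complex.exp_ofReal_mul_I_re]
  · rw [mul_comm, Complex.exp_ofReal_mul_I_im]

lemma ex_add (t : ℝ) (m n : ℤ) : ex t (m + n) = ex t m * ex t n := by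
  unfold ex
  rw [← Complex.exp_add]
  congr 1
  push_cast
  ring

lemma ex_zero (t : ℝ) : ex t 0 = 1 := by
  unfold ex
  simp

lemma cj_ex (t : ℝ) (n : ℤ) : cj (ex t n) = ex t (-n) := by
  unfold cj
  rw [ex_eq, ex_eq]
  apply Complex.ext
  · simp
  · simp

lemma cj_mul (a b : ℂ) : cj (a * b) = cj a * cj b := by
  unfold cj; exact map_mul _ _ _

lemma cj_pow (a : ℂ) (n : ℕ) : cj (a ^ n) = cj a ^ n := by
  unfold cj; exact map_pow _ _ _

lemma ex_mul_neg (t : ℝ) (n : ℤ) : ex t n * ex t (-n) = 1 := by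
  rw [← ex_add, add_neg_cancel, ex_zero]

lemma ex_two_mul (t : ℝ) (n : ℤ) : ex t (2 * n) = lam t ^ n := by
  unfold lam
  have h : ex t 2 ≠ 0 := by unfold ex; exact Complex.exp_ne_zero _
  unfold ex
  rw [← Complex.exp_int_mul]
  congr 1
  push_cast
  ring

lemma ex_two_mul_nat (t : ℝ) (n : ℕ) : ex t (2 * (n : ℤ)) = lam t ^ n := by
  rw [ex_two_mul, zpow_natCast]

lemma normSq_ex (t : ℝ) (n : ℤ) : Complex.normSq (ex t n) = 1 := by
  rw [ex_eq, Complex.normSq_mk]
  nlinarith [Real.sin_sq_add_cos_sq (n * t)]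

/-- `1 - λ^m` -/
lemma one_sub_lam_pow (t : ℝ) (m : ℕ) :
    1 - lam t ^ m = ((2 * Real.sin (m * t) : ℝ) : ℂ) * (-I) * ex t m := by
  rw [← ex_two_mul_nat]
  have h1 : ex t (2 * (m : ℤ)) = ex t m * ex t m := by rw [← ex_add]; congr 1; ring
  have h2 : (1 : ℂ) = ex t (-m) * ex t m := by
    rw [← ex_add, neg_add_cancel, ex_zero]
  rw [h1]
  nth_rewrite 1 [h2]
  rw [← sub_mul]
  congr 1
  rw [ex_eq, ex_eq]
  have e3 : (((-(m : ℤ)) : ℤ) : ℝ) * t = -((m : ℝ) * t) := by push_cast; ring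
  have e4 : (((m : ℤ)) : ℝ) * t = (m : ℝ) * t := by push_cast; ring
  rw [e3, e4, Real.cos_neg, Real.sin_neg]
  generalize Real.sin ((m : ℝ) * t) = s
  generalize Real.cos ((m : ℝ) * t) = c
  apply Complex.ext
  · simp
  · simp
    ring

section
variable {k : ℕ} {t : ℝ}

lemma t_eq (hk : 3 ≤ k) (ht : t = tau k) : (2 * (k : ℝ) + 1) * t = Real.pi / 2 := by
  rw [ht]; unfold tau
  have : (2 * (k : ℝ) + 1) ≠ 0 := by positivity
  field_simp

lemma t_pos (ht : t = tau k) : 0 < t := by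
  rw [ht]; unfold tau
  have := Real.pi_pos
  positivity

lemma t_le (hk : 3 ≤ k) (ht : t = tau k) : t ≤ Real.pi / 14 := by
  rw [ht]; unfold tau
  have hk' : (3 : ℝ) ≤ k := by exact_mod_cast hk
  apply div_le_div_of_nonneg_left Real.pi_pos.le (by norm_num)
  linarith

lemma sin_m_pos (hk : 3 ≤ k) (ht : t = tau k) (m : ℕ) (h1 : 1 ≤ m) (h5 : m ≤ 5) :
    0 < Real.sin (m * t) := by
  have h0 := t_pos ht
  have hle := t_le hk ht
  have hm : (1 : ℝ) ≤ m := by exact_mod_cast h1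
  have hm5 : (m : ℝ) ≤ 5 := by exact_mod_cast h5
  have hpi := Real.pi_pos
  apply Real.sin_pos_of_pos_of_lt_pi
  · positivity
  · nlinarith

lemma lam_pow_k (hk : 3 ≤ k) (ht : t = tau k) : lam t ^ k = lk t := by
  rw [← ex_two_mul_nat]
  unfold lk
  have h := t_eq hk ht
  rw [ex_eq, ex_eq]
  have e1 : (((2 * (k : ℤ) : ℤ) : ℝ)) * t = Real.pi / 2 - t := by push_cast; linarith
  rw [e1, Real.cos_pi_div_two_sub, Real.sin_pi_div_two_sub]
  apply Complex.ext
  · simp
  · simp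

lemma del_eq (hk : 3 ≤ k) (ht : t = tau k) : del t = (2 * k + 1) * Real.sin t := by
  have h := t_eq hk ht
  have h0 := (t_pos ht).ne'
  unfold del ph
  rw [← h]
  field_simp

lemma lam_mul_cj (t : ℝ) : lam t * cj (lam t) = 1 := by
  unfold lam; rw [cj_ex, ex_mul_neg]

lemma lk_sq (t : ℝ) : lk t * lk t = -cj (lam t) := by
  unfold lk lam
  rw [cj_ex]
  have : ex t (-2) = ex t (-1) * ex t (-1) := by rw [← ex_add]; rfl
  rw [this]
  linear_combination (ex t (-1)) ^ 2 * Complex.I_mul_I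

lemma lam_mul_lk (t : ℝ) : lam t * lk t = I * ex t 1 := by
  unfold lam lk
  have : ex t 1 = ex t 2 * ex t (-1) := by rw [← ex_add]; rfl
  rw [this]; ring

lemma I_ex_one (t : ℝ) : I * ex t 1 = lk t - (pp t : ℂ) := by
  unfold lk pp
  rw [ex_eq, ex_eq]
  have e3 : (((-1 : ℤ)) : ℝ) * t = -t := by push_cast; ring
  have e4 : (((1 : ℤ)) : ℝ) * t = t := by push_cast; ring
  rw [e3, e4, Real.cos_neg, Real.sin_neg]
  generalize Real.sin t = s
  generalize Real.cos t = c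
  apply Complex.ext
  · simp; ring
  · simp

lemma ss_pos (hk : 3 ≤ k) (ht : t = tau k) : 0 < Real.sin t := by
  have := sin_m_pos hk ht 1 le_rfl (by norm_num)
  simpa using this

lemma lam_pow_k_succ (hk : 3 ≤ k) (ht : t = tau k) : lam t ^ (k + 1) = lk t - (pp t : ℂ) := by
  rw [pow_succ, lam_pow_k hk ht, mul_comm, lam_mul_lk, I_ex_one]

lemma cs_pos (hk : 3 ≤ k) (ht : t = tau k) : 0 < cs t := by
  unfold cs
  have h0 := t_pos ht
  have hle := t_le hk ht
  have hpi := Real.pi_pos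
  apply Real.cos_pos_of_mem_Ioo
  constructor <;> linarith

lemma iE_mul (hk : 3 ≤ k) (ht : t = tau k) : iE t * (cs t ^ 2 + del t ^ 2) = 1 := by
  unfold iE
  have := cs_pos hk ht
  have h2 : 0 < cs t ^ 2 + del t ^ 2 := by positivity
  exact inv_mul_cancel₀ h2.ne'

lemma kap_mul_ik (hk : 3 ≤ k) (ht : t = tau k) : kap t * ik t = 1 := by
  have h := iE_mul hk ht
  have h2 : lam t * ex t (-2) = 1 := by unfold lam; exact ex_mul_neg t 2
  unfold kap ik
  have h3 : (⟨-(2 * (iE t * del t)), -(2 * (iE t * cs t))⟩ : ℂ) * om t = 1 := by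
    unfold om
    apply Complex.ext
    · simp only [Complex.mul_re, Complex.one_re]
      linear_combination h
    · simp only [Complex.mul_im, Complex.one_im]
      ring
  calc _ = ((⟨-(2 * (iE t * del t)), -(2 * (iE t * cs t))⟩ : ℂ) * om t) * (lam t * ex t (-2)) := by
        ring
    _ = 1 := by rw [h3, h2, mul_one]

lemma om_eq (t : ℝ) : om t = lam t * ik t := by
  unfold ik
  have h2 : lam t * ex t (-2) = 1 := by unfold lam; exact ex_mul_neg t 2
  linear_combination (-om t) * h2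

lemma lam_mul_aux (hk : 3 ≤ k) (ht : t = tau k) :
    lam t * (lk t - ((pp t * k : ℝ) : ℂ) * cj (lam t)) = ⟨-del t, cs t⟩ := by
  have h1 := lam_mul_cj t
  have h2 := lam_mul_lk t
  have h3 : lam t * (lk t - ((pp t * k : ℝ) : ℂ) * cj (lam t))
      = I * ex t 1 - ((pp t * k : ℝ) : ℂ) := by
    rw [← h2]
    linear_combination (-((pp t * k : ℝ) : ℂ)) * h1
  have e4 : (((1 : ℤ)) : ℝ) * t = t := by push_cast; ring
  rw [h3, del_eq hk ht, ex_eq, e4]
  unfold pp cs
  generalize Real.sin t = s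
  generalize Real.cos t = c
  apply Complex.ext
  · simp; ring
  · simp

lemma kap_mul_aux (hk : 3 ≤ k) (ht : t = tau k) :
    kap t * (lk t - ((pp t * k : ℝ) : ℂ) * cj (lam t)) = 2 := by
  have h := iE_mul hk ht
  unfold kap
  rw [mul_assoc, lam_mul_aux hk ht]
  apply Complex.ext
  · simp only [Complex.mul_re, Complex.re_ofNat]
    linear_combination 2 * h
  · simp only [Complex.mul_im, Complex.im_ofNat]
    ring

lemma lam_pow_two_k (hk : 3 ≤ k) (ht : t = tau k) : lam t ^ (2 * k) = -cj (lam t) := by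
  rw [two_mul, pow_add, lam_pow_k hk ht, lk_sq]

lemma lam_pow_two_k1 (hk : 3 ≤ k) (ht : t = tau k) : lam t ^ (2 * k + 1) = -1 := by
  rw [pow_succ, lam_pow_two_k hk ht]
  linear_combination (-1 : ℂ) * lam_mul_cj t

lemma one_add_lam_ne (hk : 3 ≤ k) (ht : t = tau k) : 1 + lam t ≠ 0 := by
  intro h
  have h2 : 1 - lam t ^ 2 = 0 := by linear_combination (1 - lam t) * h
  rw [one_sub_lam_pow] at h2
  have hs := sin_m_pos hk ht 2 (by norm_num) (by norm_num)
  have he : ex t ((2 : ℕ) : ℤ) ≠ 0 := by unfold ex; exact Complex.exp_ne_zero _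
  have h3 : ((2 * Real.sin (((2 : ℕ) : ℝ) * t) : ℝ) : ℂ) ≠ 0 := by
    exact_mod_cast (mul_pos two_pos hs).ne'
  have h4 : (-I : ℂ) ≠ 0 := neg_ne_zero.mpr Complex.I_ne_zero
  exact mul_ne_zero (mul_ne_zero h3 h4) he h2

lemma geom_odd (z : ℂ) (n : ℕ) :
    (1 - z ^ 2) * ∑ j ∈ range n, z ^ (2 * j + 1) = z * (1 - z ^ (2 * n)) := by
  induction n with
  | zero => simp
  | succ n ih =>
    rw [Finset.sum_range_succ, mul_add, ih]
    ring

lemma pp_sum (hk : 3 ≤ k) (ht : t = tau k) :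
    (pp t : ℂ) * ∑ j ∈ range k, lam t ^ (2 * j + 1) = lk t := by
  have h1 := geom_odd (lam t) k
  have h2 : lam t * (1 - lam t ^ (2 * k)) = 1 + lam t := by
    have := lam_pow_two_k1 hk ht
    rw [pow_succ] at this
    linear_combination (-1 : ℂ) * this
  rw [h2] at h1
  have h3 : (1 - lam t) * ∑ j ∈ range k, lam t ^ (2 * j + 1) = 1 := by
    have h4 := one_add_lam_ne hk ht
    apply mul_left_cancel₀ h4
    linear_combination h1
  have h5 : (pp t : ℂ) = lk t * (1 - lam t) := by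
    have h6 := lam_pow_k_succ hk ht
    rw [pow_succ, lam_pow_k hk ht] at h6
    linear_combination h6
  rw [h5, mul_assoc, h3, mul_one]

lemma mu_eq (t : ℝ) : mu t = cj (lam t) ^ 2 := by
  unfold mu lam
  rw [cj_ex, pow_two, ← ex_add]
  norm_num

lemma cj_cj (z : ℂ) : cj (cj z) = z := by unfold cj; simp

lemma cj_neg (z : ℂ) : cj (-z) = -cj z := by unfold cj; simp

lemma mu_pow_k (hk : 3 ≤ k) (ht : t = tau k) : mu t ^ k = muk t := by
  rw [mu_eq, ← pow_mul, ← cj_pow, lam_pow_two_k hk ht, cj_neg, cj_cj]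
  rfl

lemma chh_eq (hk : 3 ≤ k) (ht : t = tau k) :
    (th t : ℂ) * chh t = pp t + mu t ^ (k + 1) - mu t ^ k := by
  rw [pow_succ, mu_pow_k hk ht]
  have h1 : muk t * mu t = -cj (lam t) := by
    unfold muk
    rw [mu_eq]
    linear_combination (-cj (lam t)) * lam_mul_cj t
  rw [h1]
  unfold muk lam
  rw [cj_ex, ex_eq, ex_eq]
  have h0 := (t_pos ht).ne'
  have e2 : ((2 : ℤ) : ℝ) * t = 2 * t := by norm_num
  have e3 : (((-2 : ℤ)) : ℝ) * t = -(2 * t) := by push_cast; ring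
  rw [e2, e3, Real.cos_neg, Real.sin_neg, Real.sin_two_mul]
  unfold th chh pp ph cs
  generalize Real.sin t = s
  generalize Real.cos t = c
  generalize Real.cos (2 * t) = c2
  apply Complex.ext
  · simp
    field_simp
  · simp
    field_simp
    ring

lemma normSq_kap (hk : 3 ≤ k) (ht : t = tau k) : Complex.normSq (kap t) = kn t := by
  have h := iE_mul hk ht
  unfold kap kn
  rw [Complex.normSq_mul]
  unfold lam
  rw [normSq_ex, Complex.normSq_mk]
  linear_combination 4 * iE t * h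

lemma normSq_om (t : ℝ) : Complex.normSq (om t) = on t := by
  unfold om on
  rw [Complex.normSq_mk]
  ring

lemma Dm_mul (hk : 3 ≤ k) (ht : t = tau k) (m : ℕ) (h1 : 1 ≤ m) (h5 : m ≤ 5) :
    Dm t m * (1 - lam t ^ m) = th t ∧ (th t : ℂ) * dl t m = 1 - lam t ^ m
      ∧ 1 - lam t ^ m ≠ 0 := by
  have hs := sin_m_pos hk ht m h1 h5
  have h0 := (t_pos ht).ne'
  have hm : (m : ℝ) ≠ 0 := by
    have : (1 : ℝ) ≤ m := by exact_mod_cast h1
    positivity
  have hx : ex t (-(m : ℤ)) * ex t m = 1 := by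
    rw [← ex_add, neg_add_cancel, ex_zero]
  rw [one_sub_lam_pow]
  refine ⟨?_, ?_, ?_⟩
  · unfold Dm js th
    have e1 : (⟨0, m * t / Real.sin (m * t) / m⟩ : ℂ) = ((t / Real.sin (m * t) : ℝ) : ℂ) * I := by
      generalize hv : t / Real.sin (m * t) = v
      have : m * t / Real.sin (m * t) / m = v := by rw [← hv]; field_simp
      rw [this]
      apply Complex.ext
      · simp
      · simp
    rw [e1]
    calc ((t / Real.sin (m * t) : ℝ) : ℂ) * I * ex t (-(m : ℤ))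
          * (((2 * Real.sin (m * t) : ℝ) : ℂ) * (-I) * ex t m)
        = (((t / Real.sin (m * t) : ℝ) : ℂ) * ((2 * Real.sin (m * t) : ℝ) : ℂ))
          * (-(I * I)) * (ex t (-(m : ℤ)) * ex t m) := by ring
      _ = ((2 * t : ℝ) : ℂ) := by
        rw [hx, Complex.I_mul_I, ← Complex.ofReal_mul]
        simp only [neg_neg, mul_one]
        congr 1
        have := hs.ne'
        generalize Real.sin (m * t) = s at this ⊢
        field_simp
  · unfold dl sc th
    have e1 : (⟨0, -(m * (Real.sin (m * t) / (m * t)))⟩ : ℂ)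
        = ((Real.sin (m * t) / t : ℝ) : ℂ) * (-I) := by
      generalize hv : Real.sin (m * t) / t = v
      have : m * (Real.sin (m * t) / (m * t)) = v := by rw [← hv]; field_simp
      rw [this]
      apply Complex.ext
      · simp
      · simp
    rw [e1]
    calc ((2 * t : ℝ) : ℂ) * (((Real.sin (m * t) / t : ℝ) : ℂ) * (-I) * ex t m)
        = (((2 * t : ℝ) : ℂ) * ((Real.sin (m * t) / t : ℝ) : ℂ)) * (-I) * ex t m := by ring
      _ = _ := by
        rw [← Complex.ofReal_mul]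
        congr 3
        field_simp
  · have he : ex t (m : ℤ) ≠ 0 := by unfold ex; exact Complex.exp_ne_zero _
    have h3 : ((2 * Real.sin (m * t) : ℝ) : ℂ) ≠ 0 := by
      exact_mod_cast (mul_pos two_pos hs).ne'
    have h4 : (-I : ℂ) ≠ 0 := neg_ne_zero.mpr Complex.I_ne_zero
    exact mul_ne_zero (mul_ne_zero h3 h4) he

/-! ### sums -/

lemma sum_S (z : ℂ) (n : ℕ) : (1 - z) * ∑ j ∈ range n, z ^ j = 1 - z ^ n := by
  induction n with
  | zero => simp
  | succ n ih => rw [Finset.sum_range_succ, mul_add, ih]; ring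

lemma sum_L (z : ℂ) (n : ℕ) :
    (1 - z) * ∑ j ∈ range n, ((n : ℂ) - 1 - j) * z ^ j = n - ∑ j ∈ range n, z ^ j := by
  induction n with
  | zero => simp
  | succ n ih =>
    have e : ∑ j ∈ range (n + 1), (((n + 1 : ℕ) : ℂ) - 1 - j) * z ^ j
        = ∑ j ∈ range n, ((n : ℂ) - 1 - j) * z ^ j + ∑ j ∈ range n, z ^ j := by
      rw [Finset.sum_range_succ, ← Finset.sum_add_distrib]
      have : (((n + 1 : ℕ) : ℂ) - 1 - (n : ℂ)) * z ^ n = 0 := by push_cast; ring
      rw [this, add_zero]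
      apply Finset.sum_congr rfl
      intro j _
      push_cast
      ring
    rw [e, mul_add, ih, sum_S, Finset.sum_range_succ]
    push_cast
    ring

lemma sum_M (z : ℂ) (n : ℕ) :
    (1 - z) * ∑ j ∈ range n, ((n : ℂ) - 1 - j) ^ 2 * z ^ j
      = n ^ 2 - 2 * ∑ j ∈ range n, ((n : ℂ) - 1 - j) * z ^ j - ∑ j ∈ range n, z ^ j := by
  induction n with
  | zero => simp
  | succ n ih =>
    have e : ∑ j ∈ range (n + 1), (((n + 1 : ℕ) : ℂ) - 1 - j) * z ^ j
        = ∑ j ∈ range n, ((n : ℂ) - 1 - j) * z ^ j + ∑ j ∈ range n, z ^ j := by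
      rw [Finset.sum_range_succ, ← Finset.sum_add_distrib]
      have : (((n + 1 : ℕ) : ℂ) - 1 - (n : ℂ)) * z ^ n = 0 := by push_cast; ring
      rw [this, add_zero]
      apply Finset.sum_congr rfl
      intro j _
      push_cast
      ring
    have e2 : ∑ j ∈ range (n + 1), (((n + 1 : ℕ) : ℂ) - 1 - j) ^ 2 * z ^ j
        = ∑ j ∈ range n, ((n : ℂ) - 1 - j) ^ 2 * z ^ j
          + 2 * ∑ j ∈ range n, ((n : ℂ) - 1 - j) * z ^ j + ∑ j ∈ range n, z ^ j := by
      rw [Finset.sum_range_succ, Finset.mul_sum, ← Finset.sum_add_distrib,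
        ← Finset.sum_add_distrib]
      have : (((n + 1 : ℕ) : ℂ) - 1 - (n : ℂ)) ^ 2 * z ^ n = 0 := by push_cast; ring
      rw [this, add_zero]
      apply Finset.sum_congr rfl
      intro j _
      push_cast
      ring
    have h1 := sum_S z n
    have h2 := sum_L z n
    rw [e, e2, mul_add, mul_add, ih, Finset.sum_range_succ]
    push_cast
    linear_combination 2 * h2 + h1

lemma ex_mj (t : ℝ) (m j : ℕ) : ex t (2 * ((m : ℤ) * (j : ℤ))) = (lam t ^ m) ^ j := by
  rw [← pow_mul, ← ex_two_mul_nat]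
  push_cast
  ring_nf

lemma lam_m_k (hk : 3 ≤ k) (ht : t = tau k) (m : ℕ) :
    (lam t ^ m) ^ k = I ^ m * ex t (-m) := by
  rw [← pow_mul, mul_comm, pow_mul, lam_pow_k hk ht]
  unfold lk
  rw [mul_pow]
  congr 1
  unfold ex
  rw [← Complex.exp_nat_mul]
  congr 1
  push_cast
  ring

lemma th_k (hk : 3 ≤ k) (ht : t = tau k) : th t * k = kt t := by
  have h := t_eq hk ht
  unfold th kt
  linarith

lemma Sg_eq (hk : 3 ≤ k) (ht : t = tau k) (m : ℕ) (h1 : 1 ≤ m) (h5 : m ≤ 5) :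
    Sg t m = (th t : ℂ) * ∑ j ∈ range k, (lam t ^ m) ^ j := by
  obtain ⟨hD, -, -⟩ := Dm_mul hk ht m h1 h5
  unfold Sg
  rw [← lam_m_k hk ht m, ← hD, mul_assoc, sum_S]

lemma Lg_eq (hk : 3 ≤ k) (ht : t = tau k) (m : ℕ) (h1 : 1 ≤ m) (h5 : m ≤ 5) :
    Lg t m = (th t : ℂ) ^ 2 * ∑ j ∈ range k, ((k : ℂ) - 1 - j) * (lam t ^ m) ^ j := by
  obtain ⟨hD, -, -⟩ := Dm_mul hk ht m h1 h5
  have hk' : (kt t : ℂ) = (th t : ℂ) * k := by rw [← th_k hk ht]; push_cast; ring
  unfold Lg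
  rw [Sg_eq hk ht m h1 h5, hk']
  have h2 := sum_L (lam t ^ m) k
  linear_combination ((th t : ℂ) * ∑ j ∈ range k, ((k : ℂ) - 1 - j) * (lam t ^ m) ^ j) * hD
    - (th t : ℂ) * Dm t m * h2

lemma Mg_eq (hk : 3 ≤ k) (ht : t = tau k) (m : ℕ) (h1 : 1 ≤ m) (h5 : m ≤ 5) :
    Mg t m = (th t : ℂ) ^ 3 * ∑ j ∈ range k, ((k : ℂ) - 1 - j) ^ 2 * (lam t ^ m) ^ j := by
  obtain ⟨hD, -, -⟩ := Dm_mul hk ht m h1 h5
  have hk' : (kt t : ℂ) = (th t : ℂ) * k := by rw [← th_k hk ht]; push_cast; ring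
  unfold Mg
  rw [Sg_eq hk ht m h1 h5, Lg_eq hk ht m h1 h5]
  push_cast
  rw [hk']
  have h2 := sum_M (lam t ^ m) k
  linear_combination
    ((th t : ℂ) ^ 2 * ∑ j ∈ range k, ((k : ℂ) - 1 - j) ^ 2 * (lam t ^ m) ^ j) * hD
    - (th t : ℂ) ^ 2 * Dm t m * h2

/-- right side of the last clause -/
noncomputable def RR (k : ℕ) (t : ℝ) (f : ℕ) (m : ℤ) : ℂ :=
  (th t : ℂ) * ∑ j ∈ range k, ((th t * ((k : ℝ) - 1 - j) : ℝ) : ℂ) ^ f
          * ex t (2 * (m * (j : ℤ)))

lemma RR_pos (hk : 3 ≤ k) (ht : t = tau k) (m : ℕ) (h1 : 1 ≤ m) (h5 : m ≤ 5) :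
    RR k t 0 m = Sg t m ∧ RR k t 1 m = Lg t m ∧ RR k t 2 m = Mg t m := by
  refine ⟨?_, ?_, ?_⟩
  · rw [Sg_eq hk ht m h1 h5]
    unfold RR
    congr 1
    apply Finset.sum_congr rfl
    intro j _
    rw [pow_zero, one_mul, ex_mj]
  · rw [Lg_eq hk ht m h1 h5]
    unfold RR
    rw [pow_two, mul_assoc, Finset.mul_sum _ _ (th t : ℂ), Finset.mul_sum, Finset.mul_sum]
    apply Finset.sum_congr rfl
    intro j _
    rw [pow_one, ex_mj]
    push_cast
    ring
  · rw [Mg_eq hk ht m h1 h5]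
    unfold RR
    rw [Finset.mul_sum, Finset.mul_sum]
    apply Finset.sum_congr rfl
    intro j _
    rw [ex_mj]
    push_cast
    ring

lemma RR_neg (k : ℕ) (t : ℝ) (f : ℕ) (m : ℤ) :
    RR k t f (-m) = (starRingEnd ℂ) (RR k t f m) := by
  unfold RR
  rw [map_mul, map_sum, Complex.conj_ofReal]
  congr 1
  apply Finset.sum_congr rfl
  intro j _
  rw [map_mul, map_pow, Complex.conj_ofReal]
  congr 1
  have := cj_ex t (2 * (m * (j : ℤ)))
  unfold cj at this
  rw [this]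
  congr 1
  ring

lemma RR_zero (hk : 3 ≤ k) (ht : t = tau k) :
    RR k t 0 0 = (kt t : ℂ) ∧ RR k t 1 0 = (L0 t : ℂ) ∧ RR k t 2 0 = (M0 t : ℂ) := by
  have hk' := th_k hk ht
  have g1 : ∀ n : ℕ, ∑ j ∈ range n, ((n : ℝ) - 1 - j) = n * (n - 1) / 2 := by
    intro n
    induction n with
    | zero => simp
    | succ n ih =>
      have e : ∑ j ∈ range (n + 1), (((n + 1 : ℕ) : ℝ) - 1 - j)
          = ∑ j ∈ range n, ((n : ℝ) - 1 - j) + n := by
        rw [Finset.sum_range_succ]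
        have h0 : ((n + 1 : ℕ) : ℝ) - 1 - n = 0 := by push_cast; ring
        rw [h0, add_zero]
        have h2 : ∀ j ∈ range n, (((n + 1 : ℕ) : ℝ) - 1 - j) = ((n : ℝ) - 1 - j) + 1 := by
          intro j _; push_cast; ring
        rw [Finset.sum_congr rfl h2, Finset.sum_add_distrib]
        simp
      rw [e, ih]; push_cast; ring
  have g2 : ∀ n : ℕ, ∑ j ∈ range n, ((n : ℝ) - 1 - (j : ℝ)) ^ 2
      = ((n : ℝ) - 1) * n * (2 * n - 1) / 6 := by
    intro n
    induction n with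
    | zero => simp
    | succ n ih =>
      have e : ∑ j ∈ range (n + 1), (((n + 1 : ℕ) : ℝ) - 1 - j) ^ 2
          = ∑ j ∈ range n, ((n : ℝ) - 1 - j) ^ 2 + 2 * ∑ j ∈ range n, ((n : ℝ) - 1 - j) + n := by
        rw [Finset.sum_range_succ]
        have h0 : (((n + 1 : ℕ) : ℝ) - 1 - n) ^ 2 = 0 := by push_cast; ring
        rw [h0, add_zero]
        have h2 : ∀ j ∈ range n, (((n + 1 : ℕ) : ℝ) - 1 - j) ^ 2
            = ((n : ℝ) - 1 - j) ^ 2 + 2 * ((n : ℝ) - 1 - j) + 1 := by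
          intro j _; push_cast; ring
        rw [Finset.sum_congr rfl h2, Finset.sum_add_distrib, Finset.sum_add_distrib,
          Finset.mul_sum]
        simp
      rw [e, ih, g1]; push_cast; ring
  refine ⟨?_, ?_, ?_⟩
  · unfold RR
    simp only [pow_zero, zero_mul, mul_zero, ex_zero, mul_one, Finset.sum_const, Finset.card_range,
      nsmul_eq_mul]
    rw [← hk']
    push_cast
    ring
  · unfold RR
    simp only [pow_one, zero_mul, mul_zero, ex_zero, mul_one]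
    rw [← Complex.ofReal_sum, ← Complex.ofReal_mul, ← Finset.mul_sum, g1]
    congr 1
    unfold L0
    rw [← hk']
    ring
  · unfold RR
    simp only [zero_mul, mul_zero, ex_zero, mul_one]
    have e : ∀ j ∈ range k, ((th t * ((k : ℝ) - 1 - j) : ℝ) : ℂ) ^ 2
        = ((th t ^ 2 * ((k : ℝ) - 1 - j) ^ 2 : ℝ) : ℂ) := by
      intro j _; push_cast; ring
    rw [Finset.sum_congr rfl e, ← Complex.ofReal_sum, ← Complex.ofReal_mul, ← Finset.mul_sum, g2]
    congr 1
    unfold M0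
    rw [← hk']
    ring

lemma Gg_eq (hk : 3 ≤ k) (ht : t = tau k) (f : ℕ) (hf : f ≤ 2) (m : ℤ) (h1 : -4 ≤ m)
    (h2 : m ≤ 4) : Gg t f m = RR k t f m := by
  obtain ⟨z0, z1, z2⟩ := RR_zero hk ht
  have key : ∀ n : ℕ, 1 ≤ n → n ≤ 5 →
      RR k t 0 (n : ℤ) = Sg t n ∧ RR k t 1 (n : ℤ) = Lg t n ∧ RR k t 2 (n : ℤ) = Mg t n :=
    fun n a b => RR_pos hk ht n a b
  rcases lt_trichotomy m 0 with hm | hm | hm
  · obtain ⟨n, rfl⟩ : ∃ n : ℕ, m = -((n : ℤ) + 1) := by
      refine ⟨(-m - 1).toNat, ?_⟩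
      omega
    obtain ⟨k0', k1', k2'⟩ := key (n + 1) (by omega) (by omega)
    have hn : -((n : ℤ) + 1) = Int.negSucc n := by
      rw [Int.negSucc_eq]
    have hR : ∀ f, RR k t f (-((n : ℤ) + 1)) = (starRingEnd ℂ) (RR k t f ((n + 1 : ℕ) : ℤ)) := by
      intro f
      rw [RR_neg]
      push_cast
      rfl
    interval_cases f
    · rw [hR, k0', hn]; rfl
    · rw [hR, k1', hn]; rfl
    · rw [hR, k2', hn]; rfl
  · subst hm
    interval_cases f
    · rw [z0]; rfl
    · rw [z1]; rfl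
    · rw [z2]; rfl
  · obtain ⟨n, rfl⟩ : ∃ n : ℕ, m = ((n + 1 : ℕ) : ℤ) := by
      refine ⟨(m - 1).toNat, ?_⟩
      omega
    obtain ⟨k0', k1', k2'⟩ := key (n + 1) (by omega) (by omega)
    interval_cases f
    · rw [k0']; rfl
    · rw [k1']; rfl
    · rw [k2']; rfl

end

/-- packet CST -/
theorem cst : CstStmt := by
  intro k hk t ht
  have h0 := (t_pos ht).ne'
  have hss := (ss_pos hk ht).ne'
  refine ⟨t_pos ht, t_le hk ht, th_k hk ht, del_eq hk ht, ?_, ?_, lam_pow_k hk ht,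
    lam_pow_k_succ hk ht, ?_, lam_mul_cj t, ?_, mu_eq t, ?_, ?_, kap_mul_ik hk ht, om_eq t, ?_,
    kap_mul_aux hk ht, pp_sum hk ht, mu_pow_k hk ht, chh_eq hk ht, normSq_kap hk ht,
    normSq_om t, fun m h1 h5 => Dm_mul hk ht m h1 h5, fun n => ex_two_mul t n, ?_⟩
  · unfold pp th ph
    field_simp
  · unfold js ph
    simp only [Nat.cast_one, one_mul]
    field_simp
  · have h1 : cj (lk t) = -(I * ex t 1) := by
      unfold lk
      rw [cj_mul, cj_ex]
      unfold cj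
      simp
    rw [h1, I_ex_one]
    have h5 : (pp t : ℂ) = lk t * (1 - lam t) := by
      have h6 := lam_pow_k_succ hk ht
      rw [pow_succ, lam_pow_k hk ht] at h6
      linear_combination h6
    have h6 := lam_mul_lk t
    have h7 := lk_sq t
    have h8 := lam_mul_cj t
    have h9 := I_ex_one t
    -- lam - 1 = pp * (lk - pp), pp = lk (1 - lam), lk - pp = lam * lk
    have h10 : lk t - (pp t : ℂ) = lam t * lk t := by rw [h5]; ring
    rw [h10, h5]
    linear_combination (lam t * (lam t - 1)) * h7 - (lam t - 1) * h8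
  · unfold lam
    rw [cj_ex]
  · have : ex t (-8) = mu t * mu t := by unfold mu; rw [← ex_add]; norm_num
    rw [this, mu_eq]
    ring
  · unfold lk
    rw [cj_mul, cj_ex]
    unfold cj
    rw [Complex.conj_I]
    have := ex_mul_neg t (-1)
    linear_combination (-(I * I)) * this - Complex.I_mul_I
  · have h1 := om_eq t
    have h2 := kap_mul_ik hk ht
    rw [h1]
    linear_combination lam t * h2
  · intro f hf m h1 h2
    exact Gg_eq hk ht f hf m h1 h2

end Pool.Agent.Helper59.DL
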